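import Mathlib
import Pool.Agent.Q285.Mesh132.C

/-!
# MP_f17a8d_co, Q1: the generating function of the permutations avoiding the mesh pattern `(132, R)`

`Contains σ R π` is containment of the mesh pattern `(σ, R)` in the permutation `π`, as in the
problem (positions and values are zero based: `Fin k`, `Fin n`; the boxes of `R` are numbered as in
the problem, from `0` to `k` in both directions). `p132 = Equiv.swap 1 2` is the permutation `132`
and `shaded` is the set `R` of the problem.

`result`: the number of permutations of length `n` avoiding `(132, R)` is the coefficient of `x ^ n`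
in `∑ m, m! (x / (1 + x ^ 2)) ^ m` — in every partial sum `∑ m ∈ range (N + 1)` with `n ≤ N`.
-/

set_option autoImplicit false

open Finset PowerSeries

namespace Pool.Agent.Results.MP_f17a8d_co.GeneratingFunction

open Pool.Agent.Q285 Pool.Agent.Q285.Mesh132

/-- `π` contains the mesh pattern `(σ, R)`: `f` gives the positions of an occurrence of `σ` such that
no shaded box `(a, b)` contains a point `(x, π x)`. The box `(a, b)` consists of the points to the
right of the first `a` positions and to the left of the others, above the `b` smallest values of the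
occurrence and below the others. -/
def Contains {k n : ℕ} (σ : Equiv.Perm (Fin k)) (R : Set (ℕ × ℕ)) (π : Equiv.Perm (Fin n)) : Prop :=
  ∃ f : Fin k → Fin n, StrictMono f ∧ (∀ i j, π (f i) < π (f j) ↔ σ i < σ j) ∧
    ∀ b ∈ R, ¬ ∃ x : Fin n,
      (∀ j : Fin k, ((j : ℕ) < b.1 → f j < x) ∧ (b.1 ≤ (j : ℕ) → x < f j)) ∧
      (∀ j : Fin k, ((σ j : ℕ) < b.2 → π (f j) < π x) ∧ (b.2 ≤ (σ j : ℕ) → π x < π (f j)))

/-- the permutation `132` -/
def p132 : Equiv.Perm (Fin 3) := Equiv.swap 1 2

/-- the set of shaded boxes of the problem -/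
def shaded : Set (ℕ × ℕ) :=
  {(0, 2), (0, 3), (1, 2), (1, 3), (2, 0), (2, 1), (2, 2), (2, 3), (3, 1), (3, 2)}

theorem contains_iff {n : ℕ} (π : Equiv.Perm (Fin n)) : Contains p132 shaded π ↔
    ∃ a i i' : Fin n, a < i ∧ (i' : ℕ) = i + 1 ∧ (∀ j, j < i → π j ≤ π a) ∧
      (π i : ℕ) = π a + 2 ∧ (π i' : ℕ) = π a + 1 := by
  have hp0 : p132 0 = 0 := by decide
  have hp1 : p132 1 = 2 := by decide
  have hp2 : p132 2 = 1 := by decide
  have hq : ∀ (Q : Fin 3 → Prop), Q 0 → Q 1 → Q 2 → ∀ j, Q j := by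
    intro Q h0 h1 h2 j
    fin_cases j
    exacts [h0, h1, h2]
  have hne : ∀ x y : Fin n, (x : ℕ) ≠ y → (π x : ℕ) ≠ π y := by
    intro x y hxy h
    exact hxy (congrArg Fin.val (π.injective (Fin.ext h)))
  have hv0 : (((0 : Fin 3) : ℕ)) = 0 := rfl
  have hv1 : (((1 : Fin 3) : ℕ)) = 1 := rfl
  have hv2 : (((2 : Fin 3) : ℕ)) = 2 := rfl
  constructor
  · rintro ⟨f, hf, ho, hR⟩
    have h01 : (f 0 : ℕ) < f 1 := hf (by decide)
    have h12 : (f 1 : ℕ) < f 2 := hf (by decide)
    have v02 : (π (f 0) : ℕ) < π (f 2) := (ho 0 2).2 (by rw [hp0, hp2]; decide)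
    have v21 : (π (f 2) : ℕ) < π (f 1) := (ho 2 1).2 (by rw [hp1, hp2]; decide)
    -- no point in a shaded box
    have key : ∀ (a b : ℕ), (a, b) ∈ shaded → ∀ x : Fin n,
        ((0 < a → (f 0 : ℕ) < x) ∧ (a ≤ 0 → (x : ℕ) < f 0)) →
        ((1 < a → (f 1 : ℕ) < x) ∧ (a ≤ 1 → (x : ℕ) < f 1)) →
        ((2 < a → (f 2 : ℕ) < x) ∧ (a ≤ 2 → (x : ℕ) < f 2)) →
        ((0 < b → (π (f 0) : ℕ) < π x) ∧ (b ≤ 0 → (π x : ℕ) < π (f 0))) →
        ((1 < b → (π (f 2) : ℕ) < π x) ∧ (b ≤ 1 → (π x : ℕ) < π (f 2))) →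
        ((2 < b → (π (f 1) : ℕ) < π x) ∧ (b ≤ 2 → (π x : ℕ) < π (f 1))) → False := by
      intro a b hab x p0 p1 p2 q0 q1 q2
      refine hR (a, b) hab ⟨x, hq _ p0 p1 p2, hq _ ?_ ?_ ?_⟩
      · rw [hp0]; exact q0
      · rw [hp1]; exact q2
      · rw [hp2]; exact q1
    have hA : ∀ x : Fin n, (f 1 : ℕ) < x → (x : ℕ) < f 2 → False := by
      intro x h1 h2
      have n0 := hne x (f 0) (by omega)
      have n1 := hne x (f 1) (by omega)
      have n2 := hne x (f 2) (by omega)
      rcases lt_or_gt_of_ne n0 with c0 | c0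
      · exact key 2 0 (by simp [shaded]) x (by omega) (by omega) (by omega) (by omega) (by omega)
          (by omega)
      · rcases lt_or_gt_of_ne n2 with c2 | c2
        · exact key 2 1 (by simp [shaded]) x (by omega) (by omega) (by omega) (by omega) (by omega)
            (by omega)
        · rcases lt_or_gt_of_ne n1 with c1 | c1
          · exact key 2 2 (by simp [shaded]) x (by omega) (by omega) (by omega) (by omega)
              (by omega) (by omega)
          · exact key 2 3 (by simp [shaded]) x (by omega) (by omega) (by omega) (by omega)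
              (by omega) (by omega)
    have hB : ∀ x : Fin n, (x : ℕ) < f 1 → (x : ℕ) ≠ f 0 → (π (f 2) : ℕ) < π x → False := by
      intro x h1 h2 h3
      have n1 := hne x (f 1) (by omega)
      rcases lt_or_gt_of_ne h2 with c0 | c0
      · rcases lt_or_gt_of_ne n1 with c1 | c1
        · exact key 0 2 (by simp [shaded]) x (by omega) (by omega) (by omega) (by omega) (by omega)
            (by omega)
        · exact key 0 3 (by simp [shaded]) x (by omega) (by omega) (by omega) (by omega) (by omega)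
            (by omega)
      · rcases lt_or_gt_of_ne n1 with c1 | c1
        · exact key 1 2 (by simp [shaded]) x (by omega) (by omega) (by omega) (by omega) (by omega)
            (by omega)
        · exact key 1 3 (by simp [shaded]) x (by omega) (by omega) (by omega) (by omega) (by omega)
            (by omega)
    have hC : ∀ x : Fin n, (f 2 : ℕ) < x → (π (f 0) : ℕ) < π x → (π x : ℕ) < π (f 1) → False := by
      intro x h1 h2 h3
      have n2 := hne x (f 2) (by omega)
      rcases lt_or_gt_of_ne n2 with c2 | c2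
      · exact key 3 1 (by simp [shaded]) x (by omega) (by omega) (by omega) (by omega) (by omega)
          (by omega)
      · exact key 3 2 (by simp [shaded]) x (by omega) (by omega) (by omega) (by omega) (by omega)
          (by omega)
    -- the position of the value below the last one of the occurrence
    have hlt2 := (π (f 2)).2
    have hlt1 := (π (f 1)).2
    obtain ⟨a, ha⟩ : ∃ a : Fin n, (π a : ℕ) = π (f 2) - 1 :=
      ⟨π.symm ⟨(π (f 2) : ℕ) - 1, by omega⟩, by simp⟩
    obtain ⟨b, hb⟩ : ∃ b : Fin n, (π b : ℕ) = π (f 2) + 1 :=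
      ⟨π.symm ⟨(π (f 2) : ℕ) + 1, by omega⟩, by simp⟩
    have hval : ∀ x y : Fin n, (x : ℕ) = y → (π x : ℕ) = π y := by
      intro x y hxy
      rw [Fin.ext hxy]
    have ha1 : (a : ℕ) < f 1 := by
      by_contra hcon
      have n1 : (a : ℕ) ≠ f 1 := fun h => by have := hval _ _ h; omega
      have n2 : (a : ℕ) ≠ f 2 := fun h => by have := hval _ _ h; omega
      rcases lt_or_gt_of_ne n2 with c2 | c2
      · exact hA a (by omega) c2
      · have n0 := hne a (f 0) (by omega)
        exact hC a c2 (by omega) (by omega)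
    have hb1 : (b : ℕ) = f 1 := by
      by_contra hcon
      have n2 : (b : ℕ) ≠ f 2 := fun h => by have := hval _ _ h; omega
      have n0 : (b : ℕ) ≠ f 0 := fun h => by have := hval _ _ h; omega
      have n1 := hne b (f 1) hcon
      rcases lt_or_gt_of_ne n2 with c2 | c2
      · rcases lt_or_gt_of_ne hcon with c1 | c1
        · exact hB b c1 n0 (by omega)
        · exact hA b c1 c2
      · exact hC b c2 (by omega) (by omega)
    have hb2 := hval _ _ hb1
    have h12' : (f 2 : ℕ) = f 1 + 1 := by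
      by_contra hcon
      have := (f 2).2
      exact hA ⟨(f 1 : ℕ) + 1, by omega⟩ (by simp) (by simp only; omega)
    refine ⟨a, f 1, f 2, ha1, h12', ?_, by omega, by omega⟩
    intro j hj
    rw [Fin.le_def]
    have hj' : (j : ℕ) < f 1 := hj
    by_contra hcon
    have n2 := hne j (f 2) (by omega)
    by_cases hj0 : (j : ℕ) = f 0
    · have := hval _ _ hj0
      omega
    · exact hB j hj' hj0 (by omega)
  · rintro ⟨a, i, i', hai, hi', hj, h1, h2⟩
    have hai' : (a : ℕ) < i := hai
    have hj' : ∀ j : Fin n, (j : ℕ) < i → (π j : ℕ) ≤ π a := fun j h => hj j h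
    refine ⟨![a, i, i'], ?_, ?_, ?_⟩
    · rw [Fin.strictMono_iff_lt_succ]
      intro j
      fin_cases j
      · exact hai
      · show i < i'
        rw [Fin.lt_def]
        omega
    · have e0 : (![a, i, i'] 0 : Fin n) = a := rfl
      have e1 : (![a, i, i'] 1 : Fin n) = i := rfl
      have e2 : (![a, i, i'] 2 : Fin n) = i' := rfl
      have hx : ∀ x y : Fin 3, π (![a, i, i'] x : Fin n) < π (![a, i, i'] y) ↔ p132 x < p132 y := by
        refine hq _ (hq _ ?_ ?_ ?_) (hq _ ?_ ?_ ?_) (hq _ ?_ ?_ ?_) <;>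
          simp only [e0, e1, e2, hp0, hp1, hp2, Fin.lt_def, hv0, hv1, hv2] <;> omega
      exact hx
    · rintro ⟨b1, b2⟩ hb ⟨x, hx1, hx2⟩
      have p0 : ((0 < b1 → (a : ℕ) < x) ∧ (b1 ≤ 0 → (x : ℕ) < a)) := hx1 0
      have p1 : ((1 < b1 → (i : ℕ) < x) ∧ (b1 ≤ 1 → (x : ℕ) < i)) := hx1 1
      have p2 : ((2 < b1 → (i' : ℕ) < x) ∧ (b1 ≤ 2 → (x : ℕ) < i')) := hx1 2
      have q0 := hx2 0
      have q1 := hx2 1
      have q2 := hx2 2
      rw [hp0] at q0
      rw [hp1] at q1
      rw [hp2] at q2
      have q0' : ((0 < b2 → (π a : ℕ) < π x) ∧ (b2 ≤ 0 → (π x : ℕ) < π a)) := q0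
      have q1' : ((2 < b2 → (π i : ℕ) < π x) ∧ (b2 ≤ 2 → (π x : ℕ) < π i)) := q1
      have q2' : ((1 < b2 → (π i' : ℕ) < π x) ∧ (b2 ≤ 1 → (π x : ℕ) < π i')) := q2
      have hxj := hj' x
      simp only [shaded, Set.mem_insert_iff, Set.mem_singleton_iff, Prod.mk.injEq] at hb
      omega

/-- The number of permutations of length `n` avoiding the mesh pattern `(132, R)` is the coefficient
of `x ^ n` in `∑ m, m! (x / (1 + x ^ 2)) ^ m`. -/
theorem result : ∀ n N : ℕ, n ≤ N →
    ((Nat.card {π : Equiv.Perm (Fin n) // ¬ Contains p132 shaded π} : ℕ) : ℚ) =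
      coeff n (∑ m ∈ range (N + 1), (m.factorial : ℚ⟦X⟧) * (X * (1 + X ^ 2)⁻¹) ^ m) := by
  classical
  intro n N h
  rw [← main_count n N h]
  congr 1
  rw [Nat.card_eq_fintype_card, Fintype.card_subtype]
  congr 1
  ext π
  simp only [Finset.mem_filter, Finset.mem_univ, true_and]
  rw [contains_iff, ← occ_word, not_not]

end Pool.Agent.Results.MP_f17a8d_co.GeneratingFunction
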